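import Mathlib

set_option autoImplicit false

open Set Filter Topology
open Cardinal hiding univ

namespace Pool.Agent.H.MP_eb7acf_gt

theorem bnum : ∃ (L : Type) (_ : LinearOrder L) (_ : WellFoundedLT L) (φ : (ℕ → ℕ) → L),
    Monotone φ ∧ (∀ a, ∃ f, a ≤ φ f) ∧ ℵ₀ < #L ∧ (∀ a : L, #(Iio a) < #L) ∧
      ∀ A : Set L, #A < #L → ∃ b, ∀ a ∈ A, a < b := by
  let P : Set Cardinal := {c | ∃ F : Set (ℕ → ℕ), #F = c ∧ ∀ h : ℕ → ℕ, ∃ f ∈ F, ¬ f ≤ᶠ[atTop] h}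
  have hP : P.Nonempty := ⟨_, univ, rfl, fun h => ⟨fun n => h n + 1, trivial, fun h' => by
    obtain ⟨n, hn⟩ := h'.exists
    simp at hn⟩⟩
  obtain ⟨F, f1, f2⟩ := wellFounded_lt.min_mem P hP
  have f3 : ∀ F' : Set (ℕ → ℕ), #F' < #F → ∃ h : ℕ → ℕ, ∀ f ∈ F', f ≤ᶠ[atTop] h := fun F' h => by
    by_contra h'
    push Not at h'
    exact wellFounded_lt.not_lt_min P ⟨F', rfl, h'⟩ (f1 ▸ h)
  have f4 : ℵ₀ < #F := by
    by_contra h
    obtain ⟨u, hu⟩ := (le_aleph0_iff_set_countable.1 (not_lt.1 h)).exists_eq_range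
      ((f2 0).imp fun _ h => h.1)
    obtain ⟨_, h1, h2⟩ := f2 fun n => (Finset.range (n + 1)).sup fun k => u k n
    obtain ⟨k, rfl⟩ := hu.subset h1
    exact h2 ((eventually_ge_atTop k).mono fun n hn => Finset.le_sup (f := fun k => u k n)
      (Finset.mem_range.2 (Nat.lt_succ_of_le hn)))
  have e0 : #(#F).ord.ToType = #F := mk_ord_toType _
  obtain ⟨e⟩ := Cardinal.eq.1 e0
  have hne : ∀ h : ℕ → ℕ, {a | ¬ (e a).1 ≤ᶠ[atTop] h}.Nonempty := fun h => by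
    obtain ⟨f, h1, h2⟩ := f2 h
    exact ⟨e.symm ⟨f, h1⟩, by simpa using h2⟩
  let φ : (ℕ → ℕ) → (#F).ord.ToType := fun h => wellFounded_lt.min _ (hne h)
  have p1 : ∀ g h, g ≤ᶠ[atTop] h → φ g ≤ φ h := fun g h hgh =>
    wellFounded_lt.min_le (s := {a | ¬ (e a).1 ≤ᶠ[atTop] g}) fun h' =>
      wellFounded_lt.min_mem _ (hne h) (EventuallyLE.trans h' hgh)
  have p2 : ∀ a : (#F).ord.ToType, #(Iio a) < #F := mk_Iio_toType_ord_lt
  have p3 : ∀ a, ∃ f, a < φ f := fun a => by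
    obtain ⟨h, hh⟩ := f3 ((fun a => (e a).1) '' insert a (Iio a)) (mk_image_le.trans_lt
      (mk_insert_le.trans_lt (add_lt_of_lt f4.le (p2 a) (one_lt_aleph0.trans f4))))
    refine ⟨h, not_le.1 fun h' => wellFounded_lt.min_mem _ (hne h) (hh _ ⟨_, ?_, rfl⟩)⟩
    exact h'.eq_or_lt
  refine ⟨_, inferInstance, inferInstance, φ, fun g h hgh => p1 g h (Eventually.of_forall hgh),
    fun a => (p3 a).imp fun _ h => h.le, e0.symm ▸ f4, e0.symm ▸ p2, fun A hA => ?_⟩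
  choose f hf using p3
  obtain ⟨h, hh⟩ := f3 (f '' A) (mk_image_le.trans_lt (hA.trans_eq e0))
  exact ⟨φ h, fun a ha => (hf a).trans_le (p1 _ _ (hh _ ⟨a, ha, rfl⟩))⟩

section
variable {L : Type} [LinearOrder L] [WellFoundedLT L]

lemma lub (hb : ∀ u : ℕ → L, ∃ b, ∀ n, u n < b) (F : L → L) (hF : ∀ a, a < F a) (a : L) :
    ∃ (u : ℕ → L) (d : L), u 0 = a ∧ StrictMono u ∧ (∀ n, u (n + 1) = F (u n)) ∧ (∀ n, u n < d) ∧
      ∀ c, c < d → ∃ n, c < u n := by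
  let u : ℕ → L := fun n => F^[n] a
  have h1 : ∀ n, u (n + 1) = F (u n) := fun n => Function.iterate_succ_apply' _ _ _
  refine ⟨u, wellFounded_lt.min _ (hb u), rfl, strictMono_nat_of_lt_succ fun n => h1 n ▸ hF _, h1,
    wellFounded_lt.min_mem _ (hb u), fun c hc => ?_⟩
  by_contra h
  push Not at h
  exact wellFounded_lt.not_lt_min {b | ∀ n, u n < b}
    (fun n => lt_of_lt_of_le (h1 n ▸ hF _) (h (n + 1))) hc

lemma ladder (d : L) : ∃ A : Set L, A ⊆ Iic d ∧ (∀ c, c < d → (A ∩ Iio c).Finite) ∧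
    ∀ u : ℕ → L, StrictMono u → (∀ n, u n < d) → (∀ c, c < d → ∃ n, c < u n) →
      ∀ c, c < d → ∃ a ∈ A, c ≤ a ∧ a < d := by
  rcases em (∃ u : ℕ → L, StrictMono u ∧ (∀ n, u n < d) ∧ ∀ c, c < d → ∃ n, c < u n) with
    ⟨u, u1, u2, u3⟩ | h
  · refine ⟨range u, range_subset_iff.2 fun n => (u2 n).le, fun c hc => ?_, fun _ _ _ _ c hc => ?_⟩
    · obtain ⟨n, hn⟩ := u3 c hc
      refine ((finite_Iio n).image u).subset ?_
      rintro _ ⟨⟨k, rfl⟩, hk⟩
      exact ⟨k, u1.lt_iff_lt.1 (lt_trans hk hn), rfl⟩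
    · obtain ⟨n, hn⟩ := u3 c hc
      exact ⟨_, ⟨n, rfl⟩, hn.le, u2 n⟩
  · exact ⟨∅, empty_subset _, by simp, fun u u1 u2 u3 => absurd ⟨u, u1, u2, u3⟩ h⟩

lemma basis [Nonempty L] (hgt : ∀ a : L, ∃ b, a < b) (G : AddSubgroup (Lex (L → ℤ)))
    (hG : ∀ a, ∃ g : G, g.1 a = 1 ∧ ∀ c, c ≠ a → g.1 c = 0) [TopologicalSpace G] [OrderTopology G] (x : G) :
    (𝓝 x).HasBasis (fun _ : L => True) fun a => {y | ∀ c, c < a → y.1 c = x.1 c} := by
  choose e e1 e2 using hG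
  have hl : ∀ (p q : G) (i : L), (∀ j, j < i → p.1 j = q.1 j) → p.1 i < q.1 i → p < q :=
    fun p q i h h' => ⟨i, h, h'⟩
  have hp : ∀ a, 0 < e a := fun a =>
    ⟨a, fun c hc => (e2 a c hc.ne).symm, one_pos.trans_eq (e1 a).symm⟩
  haveI : Nontrivial G := ⟨⟨_, _, (hp (Classical.arbitrary L)).ne⟩⟩
  refine (nhds_basis_abs_sub_lt x).to_hasBasis (fun ε hε => ?_) fun a _ =>
    ⟨_, hp a, fun y hy c hc => ?_⟩
  · obtain ⟨i, i1, i2⟩ := hε
    obtain ⟨b, hb⟩ := hgt i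
    refine ⟨b, trivial, fun y hy => abs_sub_lt_iff.2 ⟨hl _ _ i (fun c hc => ?_) ?_,
      hl _ _ i (fun c hc => ?_) ?_⟩⟩
    · exact (sub_eq_zero.2 (hy c (hc.trans hb))).trans (i1 c hc)
    · exact (sub_eq_zero.2 (hy i hb)).trans_lt i2
    · exact (sub_eq_zero.2 (hy c (hc.trans hb)).symm).trans (i1 c hc)
    · exact (sub_eq_zero.2 (hy i hb).symm).trans_lt i2
  · by_contra h
    have hne : {c | y.1 c ≠ x.1 c}.Nonempty := ⟨c, h⟩
    have h1 := wellFounded_lt.min_mem _ hne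
    have h2 : wellFounded_lt.min _ hne < a := (wellFounded_lt.min_le h).trans_lt hc
    have h3 : ∀ j, j < wellFounded_lt.min _ hne → y.1 j = x.1 j := fun j hj => by
      by_contra h'
      exact wellFounded_lt.not_lt_min {c | y.1 c ≠ x.1 c} h' hj
    generalize wellFounded_lt.min _ hne = m at h1 h2 h3
    rcases lt_or_gt_of_ne h1 with h4 | h4
    · refine (abs_sub_lt_iff.1 hy.out).2.not_gt (hl _ _ m (fun j hj => ?_) ?_)
      · exact (e2 a j (hj.trans h2).ne).trans (sub_eq_zero.2 (h3 j hj).symm).symm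
      · exact (e2 a m h2.ne).trans_lt (sub_pos.2 h4)
    · refine (abs_sub_lt_iff.1 hy.out).1.not_gt (hl _ _ m (fun j hj => ?_) ?_)
      · exact (e2 a j (hj.trans h2).ne).trans (sub_eq_zero.2 (h3 j hj)).symm
      · exact (e2 a m h2.ne).trans_lt (sub_pos.2 h4)

end

lemma alg {L : Type} [LinearOrder L] [WellFoundedLT L] (h3 : ℵ₀ < #L) (h4 : ∀ a : L, #(Iio a) < #L)
    (h5 : ∀ A : Set L, #A < #L → ∃ b, ∀ a ∈ A, a < b) (hb : ∀ u : ℕ → L, ∃ b, ∀ n, u n < b) :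
    ∃ (G : AddSubgroup (Lex (L → ℤ))) (H : L → AddSubgroup (Lex (L → ℤ))),
      (∀ a, ∃ g : G, g.1 a = 1 ∧ ∀ c, c ≠ a → g.1 c = 0) ∧ (∀ d, H d ≤ G) ∧
      (∀ d, ∀ g ∈ H d, ∀ c, d ≤ c → g c = 0) ∧
      (∀ g ∈ G, {d | ¬ ∃ g' ∈ H d, ∀ c, c < d → g c = g' c}.Finite) ∧
      (∀ (η : G → L) (a : L), ∃ d, a < d ∧ ∀ g : G, g.1 ∈ H d → η g < d) ∧
      ∀ (d : L) (u : ℕ → L), StrictMono u → (∀ n, u n < d) → (∀ c, c < d → ∃ n, c < u n) →
        ∃ g : G, ∀ c, c < d → ∃ a, c ≤ a ∧ a < d ∧ g.1 a ≠ 0 := by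
  classical
  have hgt : ∀ a : L, ∃ b, a < b := fun a => (hb fun _ => a).imp fun _ h => h 0
  choose A a1 a2 a3 using ladder (L := L)
  obtain ⟨C, c0, c1, c2, c3⟩ : ∃ C : L × Bool → Set L, (∀ a, C (a, true) = A a) ∧
      (∀ a, C (a, false) = {a}) ∧ (∀ i, C i ⊆ Iic i.1) ∧
      ∀ i c, c < i.1 → (C i ∩ Iio c).Finite := by
    refine ⟨fun i => cond i.2 (A i.1) {i.1}, fun _ => rfl, fun _ => rfl, ?_, ?_⟩
    · rintro ⟨i, _ | _⟩
      · exact singleton_subset_iff.2 le_rfl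
      · exact a1 i
    · rintro ⟨i, _ | _⟩ c hc
      · exact (finite_singleton _).inter_of_left _
      · exact a2 i c hc
  let x : L × Bool → Lex (L → ℤ) := fun i => toLex ((C i).indicator 1)
  let G := AddSubgroup.closure (range x)
  let H : L → AddSubgroup (Lex (L → ℤ)) := fun d => AddSubgroup.closure (x '' {i | i.1 < d})
  have hG : ∀ a, ∃ g : G, g.1 a = 1 ∧ ∀ c, c ≠ a → g.1 c = 0 := fun a =>
    ⟨⟨_, AddSubgroup.subset_closure ⟨(a, false), rfl⟩⟩,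
      indicator_of_mem ((c1 a).symm.subset rfl) _,
      fun c hc => indicator_of_notMem (fun h => hc ((c1 a).subset h)) _⟩
  have g1 : ∀ d, H d ≤ G := fun d => AddSubgroup.closure_mono (image_subset_range _ _)
  have g2 : ∀ d, ∀ g ∈ H d, ∀ c, d ≤ c → g c = 0 := fun d g hg c hc => by
    induction hg using AddSubgroup.closure_induction with
    | mem _ h =>
      obtain ⟨i, hi, rfl⟩ := h
      exact indicator_of_notMem (fun h => (lt_of_lt_of_le hi hc).not_ge (c2 i h)) _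
    | zero => rfl
    | add _ _ _ _ h h' => exact (congrArg₂ (· + ·) h h').trans (add_zero _)
    | neg _ _ h => exact neg_eq_zero.2 h
  have g3 : ∀ d, #(H d) < #L := fun d => by
    let v : {i : L × Bool | i.1 < d} → Lex (L → ℤ) := fun i => x i
    have e1 : (H d : Set (Lex (L → ℤ))) ⊆ range (Finsupp.linearCombination ℤ v) :=
      (AddSubgroup.closure_le (LinearMap.range (Finsupp.linearCombination ℤ v)).toAddSubgroup).2
        fun _ ⟨i, hi, h⟩ => ⟨Finsupp.single ⟨i, hi⟩ 1, by simp [v, h]⟩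
    refine ((mk_le_mk_of_subset e1).trans mk_range_le).trans_lt ?_
    have e2 : #{i : L × Bool | i.1 < d} < #L := by
      refine (mk_le_of_injective (f := fun i : {i : L × Bool | i.1 < d} =>
        ((⟨i.1.1, i.2⟩, i.1.2) : Iio d × Bool)) fun i j h => Subtype.ext (Prod.ext
          (congrArg (fun z => z.1.1) h) (congrArg (fun z => z.2) h))).trans_lt ?_
      rw [mk_prod, lift_id, lift_id]
      exact mul_lt_of_lt h3.le (h4 d) (mk_le_aleph0.trans_lt h3)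
    rcases finite_or_infinite {i : L × Bool | i.1 < d} with h | h
    · exact mk_le_aleph0.trans_lt h3
    · rw [mk_finsupp_of_infinite]
      exact max_lt e2 (mk_le_aleph0.trans_lt h3)
  have g0 : ∀ d (T : Set L), T.Finite → T ⊆ Iio d → toLex (T.indicator 1) ∈ H d := by
    intro d T hT
    induction T, hT using Set.Finite.induction_on with
    | empty => intro _; rw [indicator_empty]; exact zero_mem _
    | @insert a T ha _ ih =>
      intro h
      rw [insert_eq, indicator_union_of_disjoint (disjoint_singleton_left.2 ha), ← c1]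
      exact add_mem (AddSubgroup.subset_closure ⟨(a, false), h (mem_insert _ _), rfl⟩)
        (ih ((subset_insert _ _).trans h))
  have g4 : ∀ g ∈ G, {d | ¬ ∃ g' ∈ H d, ∀ c, c < d → g c = g' c}.Finite := fun g hg => by
    induction hg using AddSubgroup.closure_induction with
    | mem _ h =>
      obtain ⟨i, rfl⟩ := h
      refine (finite_singleton i.1).subset fun d hd => ?_
      by_contra h
      refine hd ?_
      rcases lt_or_gt_of_ne h with h | h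
      · refine ⟨_, g0 d _ (c3 i d h) inter_subset_right, fun c hc => ?_⟩
        show (C i).indicator (1 : L → ℤ) c = (C i ∩ Iio d).indicator (1 : L → ℤ) c
        simp [indicator, hc]
      · exact ⟨_, AddSubgroup.subset_closure ⟨i, h, rfl⟩, fun _ _ => rfl⟩
    | zero => exact finite_empty.subset fun d hd => hd ⟨0, zero_mem _, fun _ _ => rfl⟩
    | add _ _ _ _ h h' =>
      refine (h.union h').subset fun d hd => ?_
      by_contra h6
      simp only [mem_union, mem_ofPred_eq, not_or, not_not] at h6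
      obtain ⟨⟨p, p1, p2⟩, q, q1, q2⟩ := h6
      exact hd ⟨p + q, add_mem p1 q1, fun c hc => congrArg₂ (· + ·) (p2 c hc) (q2 c hc)⟩
    | neg _ _ h =>
      exact h.subset fun d hd ⟨p, p1, p2⟩ =>
        hd ⟨-p, neg_mem p1, fun c hc => congrArg Neg.neg (p2 c hc)⟩
  have g5 : ∀ (η : G → L) (a : L), ∃ d, a < d ∧ ∀ g : G, g.1 ∈ H d → η g < d := fun η a => by
    have : ∀ b, ∃ b', b < b' ∧ ∀ g : G, g.1 ∈ H b → η g < b' := fun b => by
      obtain ⟨b', hb'⟩ := h5 (range fun g : H b => η ⟨g, g1 b g.2⟩) (mk_range_le.trans_lt (g3 b))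
      obtain ⟨b'', hb''⟩ := hgt b
      exact ⟨max b' b'', lt_max_of_lt_right hb'', fun g hg =>
        lt_max_of_lt_left (hb' _ ⟨⟨g, hg⟩, rfl⟩)⟩
    choose F f1 f2 using this
    obtain ⟨u, d, u0, u1, u2, u3, u4⟩ := lub hb F f1 a
    refine ⟨d, u0 ▸ u3 0, fun g hg => ?_⟩
    have : H d ≤ ⨆ n, H (u n) := (AddSubgroup.closure_le _).2 fun _ ⟨i, hi, h⟩ => by
      obtain ⟨n, hn⟩ := u4 _ hi
      exact le_iSup (fun n => H (u n)) n (AddSubgroup.subset_closure ⟨i, hn, h⟩)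
    have hm : Monotone fun n => H (u n) := fun m n h =>
      AddSubgroup.closure_mono (image_mono fun i hi => lt_of_lt_of_le hi (u1.monotone h))
    obtain ⟨n, hn⟩ := (AddSubgroup.mem_iSup_of_directed hm.directed_le).1 (this hg)
    exact ((f2 _ g hn).trans_eq (u2 n).symm).trans (u3 (n + 1))
  refine ⟨G, H, hG, g1, g2, g4, g5, fun d u u1 u2 u3 => ⟨⟨x (d, true),
    AddSubgroup.subset_closure ⟨_, rfl⟩⟩, fun c hc => ?_⟩⟩
  obtain ⟨a, q1, q2, q3⟩ := a3 d u u1 u2 u3 c hc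
  exact ⟨a, q2, q3, (indicator_of_mem ((c0 d).symm.subset q1) (1 : L → ℤ)).trans_ne one_ne_zero⟩

theorem main : ∃ (G : Type) (_ : AddCommGroup G) (_ : LinearOrder G) (_ : TopologicalSpace G),
    OrderTopology G ∧ IsTopologicalAddGroup G ∧
    (∀ x : G, ∃ U : (ℕ → ℕ) → Set G, Antitone U ∧ (𝓝 x).HasBasis (fun _ => True) U) ∧
    ∀ S : Set G, DiscreteTopology S → IsClosed (insert 0 S) →
      ¬ Dense (AddSubgroup.closure S : Set G) := by
  classical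
  obtain ⟨L, _, _, φ, h1, h2, h3, h4, h5⟩ := bnum
  haveI : Nonempty L := ⟨φ 0⟩
  have hb : ∀ u : ℕ → L, ∃ b, ∀ n, u n < b := fun u =>
    (h5 (range u) (mk_range_le.trans_lt (mk_nat ▸ h3))).imp fun b hb n => hb _ ⟨n, rfl⟩
  have hgt : ∀ a : L, ∃ b, a < b := fun a => (hb fun _ => a).imp fun _ h => h 0
  obtain ⟨G, H, hG, g1, g2, g4, g5, g6⟩ := alg h3 h4 h5 hb
  letI : TopologicalSpace G := Preorder.topology G
  haveI : OrderTopology G := ⟨rfl⟩
  have hB := basis hgt G hG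
  refine ⟨G, inferInstance, inferInstance, inferInstance, inferInstance, inferInstance,
    fun y => ⟨fun f => {z | ∀ c, c < φ f → z.1 c = y.1 c},
      fun f g h z hz c hc => hz c (hc.trans_le (h1 h)), (hB y).to_hasBasis (fun a _ => ?_)
        fun f _ => ⟨_, trivial, subset_rfl⟩⟩, fun S s1 s2 s3 => ?_⟩
  · obtain ⟨f, hf⟩ := h2 a
    exact ⟨f, trivial, fun z hz c hc => hz c (hc.trans_le hf)⟩
  have k1 : ∀ a, ∃ b, a < b ∧ ∀ s ∈ S, (∃ c, c < a ∧ s.1 c ≠ 0) → ∀ c, b ≤ c → s.1 c = 0 := by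
    intro a
    have : ∀ g : G, ∃ b, ∀ s ∈ S, (∃ c, c < a ∧ s.1 c ≠ 0) →
        (∀ c, c < b → s.1 c = g.1 c) → s = g := fun g => by
      by_cases h : g ∈ S
      · obtain ⟨V, v1, v2⟩ := isDiscrete_iff_forall_mem_exists_isOpen.1 ⟨s1⟩ g h
        obtain ⟨b, -, hb⟩ := (hB g).mem_iff.1 (v1.mem_nhds (v2.symm.subset rfl).1)
        exact ⟨b, fun s hs _ h' => v2.subset ⟨hb h', hs⟩⟩
      · by_cases h0 : g = 0
        · exact ⟨a, fun s _ ⟨c, c1, c2⟩ h' => absurd ((h' c c1).trans (by rw [h0]; rfl)) c2⟩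
        · obtain ⟨b, -, hb⟩ := (hB g).mem_iff.1 (s2.isOpen_compl.mem_nhds
            fun h' => h'.elim h0 h)
          exact ⟨b, fun s hs _ h' => absurd (Or.inr hs) (hb h')⟩
    choose η hη using this
    choose F f1 f2 using g5 η
    obtain ⟨u, d, u0, u1, u2, u3, -⟩ := lub hb F f1 a
    refine ⟨d, u0 ▸ u3 0, fun s hs hs' c hc => ?_⟩
    obtain ⟨_, ⟨n, rfl⟩, hn⟩ := (infinite_range_of_injective
      (u1.injective.comp (add_left_injective 1))).exists_notMem_finite (g4 s s.2)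
    obtain ⟨g, p1, p2⟩ := not_not.1 hn
    have h6 := f2 (u n) ⟨g, g1 _ p1⟩ (u2 n ▸ p1)
    rw [hη ⟨g, g1 _ p1⟩ s hs hs' fun c hc => p2 c (hc.trans (h6.trans_eq (u2 n).symm))]
    exact g2 _ g p1 c ((u3 _).le.trans hc)
  choose F f1 f2 using k1
  obtain ⟨u, d, -, u1, u2, u3, u4⟩ := lub hb F f1 (φ 0)
  have k2 : ∀ g ∈ AddSubgroup.closure S, ∃ n, ∀ c, u n ≤ c → c < d → g.1 c = 0 := fun g hg => by
    induction hg using AddSubgroup.closure_induction with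
    | mem s hs =>
      rcases em (∃ c, c < d ∧ s.1 c ≠ 0) with ⟨c, c1, c2⟩ | h
      · obtain ⟨n, hn⟩ := u4 c c1
        exact ⟨n + 1, fun c' h _ => f2 _ s hs ⟨c, hn, c2⟩ c' (u2 n ▸ h)⟩
      · exact ⟨0, fun c _ hc => not_not.1 fun h' => h ⟨c, hc, h'⟩⟩
    | zero => exact ⟨0, fun _ _ _ => rfl⟩
    | add _ _ _ _ h h' =>
      obtain ⟨n, hn⟩ := h
      obtain ⟨m, hm⟩ := h'
      exact ⟨max n m, fun c c1 c2 => (congrArg₂ (· + ·)
        (hn c ((u1.monotone (le_max_left _ _)).trans c1) c2)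
        (hm c ((u1.monotone (le_max_right _ _)).trans c1) c2)).trans (add_zero _)⟩
    | neg _ _ h => exact h.imp fun n hn c c1 c2 => neg_eq_zero.2 (hn c c1 c2)
  obtain ⟨z, hz⟩ := g6 d u u1 u3 u4
  obtain ⟨g, p1, p2⟩ := (mem_closure_iff_nhds_basis (hB z)).1 (s3 _) d trivial
  obtain ⟨n, hn⟩ := k2 g p1
  obtain ⟨c, q1, q2, q3⟩ := hz (u n) (u3 n)
  exact q3 ((p2 c q2).symm.trans (hn c q1 q2))

end Pool.Agent.H.MP_eb7acf_gt
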